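import Pool.Agent.H22.Hi2

namespace Pool.Agent.Results.MP_901ac1_lc.Hard

open Pool.Agent.H22.EX

/-- Deciding whether the player to move wins Hit on a directed graph (cycles allowed) is
EXPTIME-hard, already for two token types. -/
theorem result : EXPTIMEHardOn TwoTypes HitWin := Hi.hi_hard

end Pool.Agent.Results.MP_901ac1_lc.Hard
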